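import Pool.Agent.X152.TQ.Big
import Pool.Agent.X152.TQ.Plane

set_option autoImplicit false

/-!
# An equilateral triangle tiled by fewer triangles with a 120-degree angle

The tile has the sides `32, 45, 67`. Here `c ^ 2 - a - b = 4412 > 3 * 1440`, so that `M = 12`, but
the equilateral triangle of side `9 * 1440 = 12960` can be tiled.

The tiling. Let `h = a b = 1440`. An isosceles trapezoid with the legs `h` and the bases `c ^ 2` and
`a ^ 2 + b ^ 2` consists of three triangles similar to the tile with the ratios `a`, `c` and `b`.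
The numbers `4151`, `2711` and `1271 = 13 * 32 + 19 * 45` are sums of multiples of `32` and `45`, so
the trapezoids with the legs `h` and the longer bases `6 h = 4489 + 4151`, `5 h = 4489 + 2711`,
`4 h = 4489 + 1271` can be tiled as well. On top of each other they give a trapezoid with the
sides `6 h, 3 h, 3 h, 3 h`, and three of these give the equilateral triangle of side `9 h`. (The
bound `M` comes from the fact that all integers greater than `a b - a - b` are sums of multiples of
`a` and `b`; but `1271` is such a sum as well.)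
-/

namespace Pool.Agent.Results.MP_d0305a_co.SmallerTiling

open Pool.Agent.X152.TQ
open scoped Real

/-- The closed triangle with the vertices `v 0`, `v 1`, `v 2` in the plane. -/
def triangle (v : Fin 3 → ℂ) : Set ℂ := convexHull ℝ (Set.range v)

/-- The triangles with the vertices `v` and `u` are congruent: after a permutation of the vertices
all the distances agree. -/
def Congr (v u : Fin 3 → ℂ) : Prop :=
  ∃ σ : Equiv.Perm (Fin 3), ∀ i j, dist (v (σ i)) (v (σ j)) = dist (u i) (u j)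

/-- The triangle `T` tiles into `N` copies of the triangle `R`. -/
def Tiles (T R : Fin 3 → ℂ) (N : ℕ) : Prop :=
  ∃ t : Fin N → Fin 3 → ℂ, (∀ i, Congr (t i) R) ∧ (⋃ i, triangle (t i)) = triangle T ∧
    Pairwise fun i j => Disjoint (interior (triangle (t i))) (interior (triangle (t j)))

/-- `T` is an equilateral triangle. -/
def Equilateral (T : Fin 3 → ℂ) : Prop := ∃ X : ℝ, 0 < X ∧ ∀ i j, i ≠ j → dist (T i) (T j) = X

/-- The triangles `R` of the problem: `a, b, c` are pairwise coprime positive integers, the sides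
opposite to the vertices `R 0, R 1, R 2` have the lengths `a, b, c`, the angle at `R 2` is `2 π / 3`,
and not all the angles are rational multiples of `π`. -/
def IsTile (a b c : ℕ) (R : Fin 3 → ℂ) : Prop :=
  (0 < a ∧ 0 < b ∧ 0 < c ∧ a.Coprime b ∧ a.Coprime c ∧ b.Coprime c) ∧
  (dist (R 1) (R 2) = a ∧ dist (R 2) (R 0) = b ∧ dist (R 0) (R 1) = c) ∧
  EuclideanGeometry.angle (R 0) (R 2) (R 1) = 2 * π / 3 ∧
  ¬ ∀ i, ∃ q : ℚ, EuclideanGeometry.angle (R (i + 1)) (R i) (R (i + 2)) = q * π

/-- `M = 3 ⌈(c² - a - b) / (a b)⌉`. -/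
def M (a b c : ℕ) : ℤ := 3 * ⌈((c : ℚ) ^ 2 - a - b) / (a * b)⌉

/-- The question: for every such tile, the set of all `N` for which an equilateral triangle tiles
into `N` copies of `R` is `{m² a b : m ∈ ℤ, m ≥ M}`. -/
def Q1 : Prop :=
  ∀ (a b c : ℕ) (R : Fin 3 → ℂ), IsTile a b c R →
    {N : ℕ | ∃ T, Equilateral T ∧ Tiles T R N} =
      {N : ℕ | ∃ m : ℤ, M a b c ≤ m ∧ (N : ℤ) = m ^ 2 * a * b}

/-- the tile -/
noncomputable def R₀ : Fin 3 → ℂ := ![E (-45, 45), E (32, 0), E (0, 0)]

theorem dist_E (p q : ℝ × ℝ) {d : ℝ} (hd : 0 ≤ d) (h : Q (p - q) = d ^ 2) :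
    dist (E p) (E q) = d := by
  rw [dist_eq_norm, ← E_sub]
  refine (sq_eq_sq₀ (norm_nonneg _) hd).1 ?_
  rw [E_norm, h]

theorem d12 : dist (R₀ 1) (R₀ 2) = 32 := by
  refine dist_E (32, 0) (0, 0) (by norm_num) ?_
  unfold Q; norm_num

theorem d20 : dist (R₀ 2) (R₀ 0) = 45 := by
  refine dist_E (0, 0) (-45, 45) (by norm_num) ?_
  unfold Q; norm_num

theorem d01 : dist (R₀ 0) (R₀ 1) = 67 := by
  refine dist_E (-45, 45) (32, 0) (by norm_num) ?_
  unfold Q; norm_num

theorem tile₀ : IsTile 32 45 67 R₀ := by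
  refine ⟨by norm_num, ⟨by rw [d12]; norm_num, by rw [d20]; norm_num, by rw [d01]; norm_num⟩,
    ?_, ?_⟩
  · have h := EuclideanGeometry.law_cos (R₀ 0) (R₀ 2) (R₀ 1)
    rw [d01, d12, dist_comm, d20] at h
    have hc : Real.cos (EuclideanGeometry.angle (R₀ 0) (R₀ 2) (R₀ 1)) = Real.cos (2 * π / 3) := by
      have e : Real.cos (2 * π / 3) = -1 / 2 := by
        rw [show 2 * π / 3 = π - π / 3 by ring, Real.cos_pi_sub, Real.cos_pi_div_three]
        norm_num
      rw [e]
      linarith
    have hpi := Real.pi_pos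
    exact Real.injOn_cos ⟨EuclideanGeometry.angle_nonneg _ _ _, EuclideanGeometry.angle_le_pi _ _ _⟩
      ⟨by positivity, by linarith⟩ hc
  · intro hall
    have h := EuclideanGeometry.law_cos (R₀ 1) (R₀ 0) (R₀ 2)
    rw [d12, dist_comm (R₀ 1), d01, d20] at h
    have hc : Real.cos (EuclideanGeometry.angle (R₀ 1) (R₀ 0) (R₀ 2)) = 61 / 67 := by linarith
    have h2 := niven (hall 0) ⟨61 / 67, by
      show Real.cos (EuclideanGeometry.angle (R₀ 1) (R₀ 0) (R₀ 2)) = _
      rw [hc]; norm_num⟩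
    have h3 : Real.cos (EuclideanGeometry.angle (R₀ (0 + 1)) (R₀ 0) (R₀ (0 + 2))) = 61 / 67 := hc
    rw [h3] at h2
    simp only [Set.mem_insert_iff, Set.mem_singleton_iff] at h2
    norm_num at h2

theorem congr₀ {P U V : ℝ × ℝ} (h : Good 32 45 67 U V) : Congr (vt P U V) R₀ := by
  obtain ⟨h1, h2, h3⟩ := h
  have e1 : dist (vt P U V 0) (vt P U V 1) = 32 := by
    refine dist_E P (P + U) (by norm_num) ?_
    rw [← h1]
    unfold Q
    simp only [Prod.fst_sub, Prod.snd_sub, Prod.fst_add, Prod.snd_add]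
    ring
  have e2 : dist (vt P U V 0) (vt P U V 2) = 45 := by
    refine dist_E P (P + V) (by norm_num) ?_
    rw [← h2]
    unfold Q
    simp only [Prod.fst_sub, Prod.snd_sub, Prod.fst_add, Prod.snd_add]
    ring
  have e3 : dist (vt P U V 1) (vt P U V 2) = 67 := by
    refine dist_E (P + U) (P + V) (by norm_num) ?_
    rw [← h3]
    unfold Q
    simp only [Prod.fst_sub, Prod.snd_sub, Prod.fst_add, Prod.snd_add]
    ring
  refine ⟨Equiv.swap 0 2, fun i j => ?_⟩
  have s0 : (Equiv.swap (0 : Fin 3) 2) 0 = 2 := by decide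
  have s1 : (Equiv.swap (0 : Fin 3) 2) 1 = 1 := by decide
  have s2 : (Equiv.swap (0 : Fin 3) 2) 2 = 0 := by decide
  fin_cases i <;> fin_cases j <;>
    simp only [Fin.zero_eta, Fin.mk_one, Fin.reduceFinMk, s0, s1, s2, dist_self]
  · rw [dist_comm, e3, d01]
  · rw [dist_comm, e2, dist_comm, d20]
  · rw [e3, dist_comm, d01]
  · rw [dist_comm, e1, d12]
  · rw [e2, d20]
  · rw [e1, dist_comm, d12]

/-- The answer to the question is negative: for the tile with the sides `32, 45, 67` some
equilateral triangle tiles into `116640 = 9² · 32 · 45` copies, and this number is not `m² a b` for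
an integer `m ≥ M = 12`. -/
theorem result :
    (∃ R : Fin 3 → ℂ, IsTile 32 45 67 R ∧ (∃ T, Equilateral T ∧ Tiles T R 116640) ∧
      ∀ m : ℤ, M 32 45 67 ≤ m → (116640 : ℤ) ≠ m ^ 2 * 32 * 45) ∧ ¬ Q1 := by
  have h1 : ∃ T, Equilateral T ∧ Tiles T R₀ 116640 := by
    obtain ⟨t, t1, t2, t3⟩ := tiling (a := 32) (b := 45) (c := 67) (X := 12960) (by norm_num)
      (by norm_num) (by norm_num) (by norm_num) big_cov (by norm_num)
    refine ⟨vt (0, 0) (12960, 0) (0, 12960), ⟨12960, by norm_num, fun i j hij => ?_⟩,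
      fun i => vt (t i).1 (t i).2.1 (t i).2.2, fun i => congr₀ (t1 i), t2, t3⟩
    have e1 : dist (vt (0, 0) (12960, 0) (0, 12960) 0) (vt (0, 0) (12960, 0) (0, 12960) 1) =
        12960 := by
      refine dist_E (0, 0) ((0, 0) + (12960, 0)) (by norm_num) ?_
      unfold Q; norm_num
    have e2 : dist (vt (0, 0) (12960, 0) (0, 12960) 0) (vt (0, 0) (12960, 0) (0, 12960) 2) =
        12960 := by
      refine dist_E (0, 0) ((0, 0) + (0, 12960)) (by norm_num) ?_
      unfold Q; norm_num
    have e3 : dist (vt (0, 0) (12960, 0) (0, 12960) 1) (vt (0, 0) (12960, 0) (0, 12960) 2) =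
        12960 := by
      refine dist_E ((0, 0) + (12960, 0)) ((0, 0) + (0, 12960)) (by norm_num) ?_
      unfold Q; norm_num
    fin_cases i <;> fin_cases j <;>
      simp only [Fin.zero_eta, Fin.mk_one, Fin.reduceFinMk] at hij ⊢
    · exact absurd rfl hij
    · exact e1
    · exact e2
    · rw [dist_comm]; exact e1
    · exact absurd rfl hij
    · exact e3
    · rw [dist_comm]; exact e2
    · rw [dist_comm]; exact e3
    · exact absurd rfl hij
  have h2 : ∀ m : ℤ, M 32 45 67 ≤ m → (116640 : ℤ) ≠ m ^ 2 * 32 * 45 := by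
    intro m hm h
    have hM : M 32 45 67 = 12 := by
      have : ⌈(((67 : ℕ) : ℚ) ^ 2 - (32 : ℕ) - (45 : ℕ)) / ((32 : ℕ) * (45 : ℕ))⌉ = 4 := by
        rw [Int.ceil_eq_iff]
        norm_num
      unfold M
      rw [this]
      norm_num
    rw [hM] at hm
    nlinarith
  refine ⟨⟨R₀, tile₀, h1, h2⟩, fun hQ => ?_⟩
  have h3 : (116640 : ℕ) ∈ {N : ℕ | ∃ T, Equilateral T ∧ Tiles T R₀ N} := h1
  rw [hQ 32 45 67 R₀ tile₀] at h3
  obtain ⟨m, hm, h4⟩ := h3
  exact h2 m hm (by exact_mod_cast h4)

end Pool.Agent.Results.MP_d0305a_co.SmallerTiling
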